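import Mathlib
import Pool.Agent.U663.AB.Main8
import Pool.Agent.TH893.PG.Box
import Pool.Agent.TH893.PG.Fin

/-!
# Points of the projective line and abc-triples
-/

set_option autoImplicit false

namespace Pool.Agent.U663.GR

open Finset Pool.Agent.TH893.PG Pool.Agent.TH867.QF
open Pool.Agent.H705R2.ABC Pool.Agent.H785R2.ABC

/-- the three points `0`, `∞`, `1` -/
def al : Fin 3 → ℤ × ℤ := ![(0, 1), (1, 0), (1, 1)]

theorem hal : ∀ i j, i ≠ j → (al i).1 * (al j).2 ≠ (al j).1 * (al i).2 := by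
  decide

/-- the three forms -/
def L3 : Fm (0 + 3) := FL al hal

theorem pw_al (x : ℤ × ℤ) : pw al x = - (x.1 * x.2 * (x.1 - x.2)) := by
  unfold pw dw al
  rw [Fin.prod_univ_three]
  simp

theorem Np_L3 (x : ℤ × ℤ) : Np L3 x = (x.1 * x.2 * (x.1 - x.2)).natAbs := by
  have h := Np_eq al hal x
  rw [pw_al, Int.natAbs_neg] at h
  exact h

theorem pt_L3 {x : ℤ × ℤ} (h : Pt L3 x) : IsCoprime x.1 x.2 ∧ x.1 ≠ 0 ∧ x.2 ≠ 0 ∧ x.1 ≠ x.2 := by
  refine ⟨h.cop, ?_, ?_, ?_⟩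
  · have := h.ne 0
    rw [show ev L3 x 0 = x.1 * (al 0).2 - x.2 * (al 0).1 from ev_eq al hal x 0] at this
    simpa [al] using this
  · have := h.ne 1
    rw [show ev L3 x 1 = x.1 * (al 1).2 - x.2 * (al 1).1 from ev_eq al hal x 1] at this
    simpa [al] using this
  · have := h.ne 2
    rw [show ev L3 x 2 = x.1 * (al 2).2 - x.2 * (al 2).1 from ev_eq al hal x 2] at this
    simp [al] at this
    intro h0
    apply this
    rw [h0]
    ring

/-- the triple of a point -/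
def tr (P : ℤ × ℤ) : ℕ × ℕ × ℕ :=
  if (0 < P.1 ∧ P.2 < 0) ∨ (P.1 < 0 ∧ 0 < P.2) then
    (P.1.natAbs, P.2.natAbs, P.1.natAbs + P.2.natAbs)
  else if P.1.natAbs < P.2.natAbs then (P.1.natAbs, P.2.natAbs - P.1.natAbs, P.2.natAbs)
  else (P.2.natAbs, P.1.natAbs - P.2.natAbs, P.1.natAbs)

/-- the rest of the data -/
def cd (P : ℤ × ℤ) : Bool × Bool × Bool :=
  (decide (0 < P.1), decide (0 < P.2), decide (P.1.natAbs < P.2.natAbs))

theorem tr_inj {P Q : ℤ × ℤ} (hP : P.1 ≠ 0 ∧ P.2 ≠ 0) (hQ : Q.1 ≠ 0 ∧ Q.2 ≠ 0)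
    (h : (tr P, cd P) = (tr Q, cd Q)) : P = Q := by
  obtain ⟨x, y⟩ := P
  obtain ⟨z, w⟩ := Q
  simp only [tr, cd, Prod.mk.injEq, decide_eq_decide] at h
  simp only at hP hQ
  obtain ⟨h1, h2, h3, h4⟩ := h
  simp only [Prod.mk.injEq]
  split_ifs at h1 <;> simp only [Prod.mk.injEq] at h1 <;> omega

theorem tr_prod {P : ℤ × ℤ} (hP : P.1 ≠ 0 ∧ P.2 ≠ 0 ∧ P.1 ≠ P.2) :
    (tr P).1 * (tr P).2.1 * (tr P).2.2 = (P.1 * P.2 * (P.1 - P.2)).natAbs := by
  obtain ⟨x, y⟩ := P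
  simp only at hP
  rw [Int.natAbs_mul, Int.natAbs_mul]
  unfold tr
  simp only
  split_ifs with h1 h2
  · have e : (x - y).natAbs = x.natAbs + y.natAbs := by omega
    rw [e]
  · have e : (x - y).natAbs = y.natAbs - x.natAbs := by omega
    rw [e]
    ring
  · have e : (x - y).natAbs = x.natAbs - y.natAbs := by omega
    rw [e]
    ring

theorem tr_abc {P : ℤ × ℤ} (hc : IsCoprime P.1 P.2) (hP : P.1 ≠ 0 ∧ P.2 ≠ 0 ∧ P.1 ≠ P.2) :
    0 < (tr P).1 ∧ 0 < (tr P).2.1 ∧ Nat.Coprime (tr P).1 (tr P).2.1 ∧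
      (tr P).1 + (tr P).2.1 = (tr P).2.2 ∧ ht P ≤ (tr P).2.2 ∧ (tr P).2.2 ≤ 2 * ht P := by
  obtain ⟨x, y⟩ := P
  simp only at hP hc
  have hc' : Nat.Coprime x.natAbs y.natAbs := Int.isCoprime_iff_gcd_eq_one.1 hc
  unfold tr ht
  simp only
  split_ifs with h1 h2 <;> dsimp only
  · refine ⟨by omega, by omega, hc', rfl, by omega, by omega⟩
  · refine ⟨by omega, by omega, ?_, by omega, by omega, by omega⟩
    exact (Nat.coprime_sub_self_right h2.le).2 hc'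
  · refine ⟨by omega, by omega, ?_, by omega, by omega, by omega⟩
    have h3 : y.natAbs ≤ x.natAbs := by omega
    exact (Nat.coprime_sub_self_right h3).2 hc'.symm

end Pool.Agent.U663.GR
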