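import Mathlib
import Pool.Agent.U663.GR.Pt3

/-!
# Points of the projective line with a small radical, in shells
-/

set_option autoImplicit false

namespace Pool.Agent.U663.GR

open Finset Pool.Agent.TH893.PG Pool.Agent.TH867.QF
open Pool.Agent.H705R2.ABC Pool.Agent.H785R2.ABC Pool.Agent.W221.ABC7 Pool.Agent.U663.AB

theorem card_tr (G : Finset (ℤ × ℤ)) (hG : ∀ x ∈ G, Pt L3 x) :
    G.card ≤ 8 * (G.image tr).card := by
  classical
  have h1 : (G.image fun x => (tr x, cd x)).card = G.card := by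
    refine card_image_of_injOn ?_
    intro P hP Q hQ hPQ
    have p := pt_L3 (hG P hP)
    have q := pt_L3 (hG Q hQ)
    exact tr_inj ⟨p.2.1, p.2.2.1⟩ ⟨q.2.1, q.2.2.1⟩ hPQ
  have h2 : (G.image fun x => (tr x, cd x)) ⊆ (G.image tr) ×ˢ (univ : Finset (Bool × Bool × Bool)) := by
    intro z hz
    obtain ⟨x, hx, rfl⟩ := mem_image.1 hz
    exact mem_product.2 ⟨mem_image_of_mem _ hx, mem_univ _⟩
  have h3 := card_le_card h2
  rw [h1, card_product] at h3
  have h4 : (univ : Finset (Bool × Bool × Bool)).card = 8 := by decide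
  rw [h4] at h3
  omega

theorem pts_B (B lam δ : ℝ) (hlam : 0 < lam) (hδ : 0 < δ) : ∃ C : ℝ, 0 < C ∧ ∀ h : ℝ, 0 ≤ h →
    ∀ G : Finset (ℤ × ℤ), (∀ x ∈ G, Pt L3 x ∧ Real.log (ht x) ≤ h ∧
      (rad ((tr x).1 * (tr x).2.1 * (tr x).2.2) : ℝ) ≤ B * ((tr x).2.2 : ℝ) ^ lam) →
    (G.card : ℝ) ≤ C * Real.exp ((Fy lam + δ) * h) := by
  classical
  obtain ⟨C, hC⟩ := count_FyB B lam δ hlam hδ
  have hF : 0 < Fy lam := Fy_pos lam hlam
  refine ⟨8 * ((|C| + 1) * 2 ^ (Fy lam + δ)), by positivity, fun h hh G hG => ?_⟩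
  have he1 : 1 ≤ Real.exp h := Real.one_le_exp hh
  obtain ⟨X, hX⟩ : ∃ X : ℕ, X = ⌊2 * Real.exp h⌋₊ := ⟨_, rfl⟩
  have hX1 : 1 ≤ X := by
    rw [hX]
    exact Nat.le_floor (by push_cast; linarith)
  have hX2 : (X : ℝ) ≤ 2 * Real.exp h := by
    rw [hX]
    exact Nat.floor_le (by positivity)
  have hsub : ((G.image tr : Finset (ℕ × ℕ × ℕ)) : Set (ℕ × ℕ × ℕ)) ⊆ ExcB B lam X := by
    intro z hz
    obtain ⟨x, hx, rfl⟩ := mem_image.1 (Finset.mem_coe.1 hz)
    obtain ⟨g1, g2, g3⟩ := hG x hx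
    have p := pt_L3 g1
    obtain ⟨a1, a2, a3, a4, a5, a6⟩ := tr_abc p.1 ⟨p.2.1, p.2.2.1, p.2.2.2⟩
    refine ⟨a1, a2, a3, a4, ?_, g3⟩
    rw [hX]
    refine Nat.le_floor ?_
    have hpos : 0 < ht x := ht_pos g1
    have e1 : (ht x : ℝ) ≤ Real.exp h := by
      rw [← Real.log_le_iff_le_exp (by exact_mod_cast hpos)]
      exact g2
    have e2 : ((tr x).2.2 : ℝ) ≤ 2 * ht x := by exact_mod_cast a6
    linarith
  have h1 : ((G.image tr).card : ℝ) ≤ C * (X : ℝ) ^ (Fy lam + δ) := by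
    refine le_trans ?_ (hC X hX1)
    rw [← Set.ncard_coe_finset (G.image tr)]
    exact_mod_cast Set.ncard_le_ncard hsub (excB_finite B lam X)
  have h2 : (G.card : ℝ) ≤ 8 * ((G.image tr).card : ℝ) := by
    exact_mod_cast card_tr G fun x hx => (hG x hx).1
  have h3 : (X : ℝ) ^ (Fy lam + δ) ≤ 2 ^ (Fy lam + δ) * Real.exp ((Fy lam + δ) * h) := by
    calc (X : ℝ) ^ (Fy lam + δ) ≤ (2 * Real.exp h) ^ (Fy lam + δ) :=
          Real.rpow_le_rpow (Nat.cast_nonneg _) hX2 (by positivity)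
      _ = _ := by
          rw [Real.mul_rpow (by norm_num) (Real.exp_pos _).le, ← Real.exp_mul, mul_comm h]
  calc (G.card : ℝ) ≤ 8 * (C * (X : ℝ) ^ (Fy lam + δ)) := by linarith
    _ ≤ 8 * ((|C| + 1) * (2 ^ (Fy lam + δ) * Real.exp ((Fy lam + δ) * h))) := by
        refine mul_le_mul_of_nonneg_left ?_ (by norm_num)
        refine mul_le_mul ?_ h3 (Real.rpow_nonneg (Nat.cast_nonneg _) _) (by positivity)
        linarith [le_abs_self C]
    _ = _ := by ring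

theorem rad_exp {x : ℤ × ℤ} (h : Pt L3 x) :
    (rad ((tr x).1 * (tr x).2.1 * (tr x).2.2) : ℝ) = Real.exp (lN L3 x) := by
  have p := pt_L3 h
  rw [tr_prod ⟨p.2.1, p.2.2.1, p.2.2.2⟩, ← Np_L3]
  unfold rad lN
  rw [← log_prod_primes fun q hq => Nat.prime_of_mem_primeFactors hq, Real.exp_log]
  exact_mod_cast Finset.prod_pos fun q hq => (Nat.prime_of_mem_primeFactors hq).pos

theorem shell_lam (lam δ : ℝ) (hlam : 0 < lam) (hδ : 0 < δ) : ∃ C : ℝ, 0 < C ∧ ∀ h : ℝ, 0 ≤ h →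
    ∀ G : Finset (ℤ × ℤ), (∀ x ∈ G, Pt L3 x ∧ h - 1 ≤ Real.log (ht x) ∧ Real.log (ht x) ≤ h ∧
      lN L3 x ≤ lam * h) →
    (G.card : ℝ) ≤ C * Real.exp ((Fy lam + δ) * h) := by
  obtain ⟨C, hC0, hC⟩ := pts_B (Real.exp lam) lam δ hlam hδ
  refine ⟨C, hC0, fun h hh G hG => hC h hh G fun x hx => ?_⟩
  obtain ⟨g1, g2, g3, g4⟩ := hG x hx
  refine ⟨g1, g3, ?_⟩
  rw [rad_exp g1]
  have p := pt_L3 g1
  obtain ⟨a1, a2, a3, a4, a5, a6⟩ := tr_abc p.1 ⟨p.2.1, p.2.2.1, p.2.2.2⟩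
  have hpos : (0 : ℝ) < ht x := by exact_mod_cast ht_pos g1
  have h1 : Real.exp (lam * (h - 1)) ≤ ((tr x).2.2 : ℝ) ^ lam := by
    calc Real.exp (lam * (h - 1)) ≤ Real.exp (Real.log (ht x) * lam) := by
          refine Real.exp_le_exp.2 ?_
          rw [mul_comm]
          exact mul_le_mul_of_nonneg_right g2 hlam.le
      _ = (ht x : ℝ) ^ lam := by rw [Real.rpow_def_of_pos hpos]
      _ ≤ _ := Real.rpow_le_rpow hpos.le (by exact_mod_cast a5) hlam.le
  calc Real.exp (lN L3 x) ≤ Real.exp (lam + lam * (h - 1)) :=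
        Real.exp_le_exp.2 (by linarith)
    _ = Real.exp lam * Real.exp (lam * (h - 1)) := Real.exp_add _ _
    _ ≤ _ := mul_le_mul_of_nonneg_left h1 (Real.exp_pos _).le

theorem Fy_le {l : ℝ} (hl : 1 ≤ l) : Fy l ≤ max (2 * l / 3 - 2 / 15) (l - 1) := by
  unfold Fy
  split_ifs with h1 h2 h3 h4 h5 h6 h7
  · linarith
  · refine le_max_of_le_left ?_
    linarith
  all_goals first
    | (refine le_max_of_le_left ?_; linarith)
    | exact le_max_right _ _

/-- **The shells.** -/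
theorem shell (δ : ℝ) (hδ : 0 < δ) : ∃ C : ℝ, 0 < C ∧ ∀ h u : ℝ, 0 ≤ h → h ≤ u →
    ∀ G : Finset (ℤ × ℤ), (∀ x ∈ G, Pt L3 x ∧ h - 1 ≤ Real.log (ht x) ∧ Real.log (ht x) ≤ h ∧
      lN L3 x ≤ u) →
    (G.card : ℝ) ≤ C * Real.exp (max (2 * u / 3 - 2 * h / 15) (u - h) + δ * h) := by
  classical
  obtain ⟨η, hη⟩ : ∃ η, η = δ / 2 := ⟨_, rfl⟩
  have hη0 : 0 < η := by rw [hη]; positivity
  have hl : ∀ k : ℕ, 0 < 1 + (k : ℝ) * η := fun k => by positivity
  choose C hC0 hC using fun k : ℕ => shell_lam (1 + (k : ℝ) * η) η (hl k) hη0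
  obtain ⟨K, hK⟩ : ∃ K : ℕ, K = ⌈2 / η⌉₊ + 2 := ⟨_, rfl⟩
  refine ⟨9 + ∑ k ∈ range K, C k, ?_, fun h u hh hu G hG => ?_⟩
  · have : 0 ≤ ∑ k ∈ range K, C k := sum_nonneg fun k _ => (hC0 k).le
    linarith
  have hS0 : 0 ≤ ∑ k ∈ range K, C k := sum_nonneg fun k _ => (hC0 k).le
  obtain ⟨φ, hφ⟩ : ∃ φ, φ = max (2 * u / 3 - 2 * h / 15) (u - h) := ⟨_, rfl⟩
  have hφ1 : 2 * u / 3 - 2 * h / 15 ≤ φ := by rw [hφ]; exact le_max_left _ _
  have hφ2 : u - h ≤ φ := by rw [hφ]; exact le_max_right _ _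
  rw [← hφ]
  have hδh : 0 ≤ δ * h := by positivity
  rcases le_or_gt (3 * h) u with h3 | h3
  · have h1 := small_h L3 hh G fun x hx => ⟨(hG x hx).1, (hG x hx).2.2.1⟩
    refine h1.trans ?_
    refine mul_le_mul (by linarith) (Real.exp_le_exp.2 (by linarith)) (Real.exp_pos _).le
      (by linarith)
  · have hh0 : 0 < h := by linarith
    obtain ⟨q, hq⟩ : ∃ q, q = (u / h - 1) / η := ⟨_, rfl⟩
    have hq0 : 0 ≤ q := by
      rw [hq]
      have : 1 ≤ u / h := by rw [le_div_iff₀ hh0]; linarith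
      exact div_nonneg (by linarith) hη0.le
    have hqη : (1 + q * η) * h = u := by
      rw [hq]
      field_simp
      ring
    have hq2 : q ≤ 2 / η := by
      rw [hq]
      refine div_le_div_of_nonneg_right ?_ hη0.le
      have : u / h < 3 := by rw [div_lt_iff₀ hh0]; linarith
      linarith
    obtain ⟨k, hk⟩ : ∃ k : ℕ, k = ⌈q⌉₊ := ⟨_, rfl⟩
    have hk1 : q ≤ k := by rw [hk]; exact Nat.le_ceil q
    have hk2 : (k : ℝ) < q + 1 := by rw [hk]; exact Nat.ceil_lt_add_one hq0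
    have hkK : k ∈ range K := by
      rw [mem_range, hK, hk]
      have : ⌈q⌉₊ ≤ ⌈2 / η⌉₊ := Nat.ceil_le_ceil hq2
      omega
    have hu1 : u ≤ (1 + (k : ℝ) * η) * h := by
      rw [← hqη]
      refine mul_le_mul_of_nonneg_right ?_ hh
      have := mul_le_mul_of_nonneg_right hk1 hη0.le
      linarith
    have hu2 : (1 + (k : ℝ) * η) * h ≤ u + η * h := by
      have e1 : (k : ℝ) * η ≤ (q + 1) * η := mul_le_mul_of_nonneg_right hk2.le hη0.le
      calc (1 + (k : ℝ) * η) * h ≤ (1 + (q + 1) * η) * h :=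
            mul_le_mul_of_nonneg_right (by linarith) hh
        _ = (1 + q * η) * h + η * h := by ring
        _ = u + η * h := by rw [hqη]
    have h1 := hC k h hh G fun x hx =>
      ⟨(hG x hx).1, (hG x hx).2.1, (hG x hx).2.2.1, (hG x hx).2.2.2.trans hu1⟩
    refine h1.trans ?_
    have hηh : 0 ≤ η * h := by positivity
    refine mul_le_mul ?_ (Real.exp_le_exp.2 ?_) (Real.exp_pos _).le (by linarith)
    · have := Finset.single_le_sum (f := C) (fun j _ => (hC0 j).le) hkK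
      linarith
    · have e1 := Fy_le (l := 1 + (k : ℝ) * η) (by have := mul_nonneg (Nat.cast_nonneg (α := ℝ) k) hη0.le; linarith)
      have e2 : Fy (1 + (k : ℝ) * η) * h ≤ φ + η * h := by
        rcases le_max_iff.1 e1 with e3 | e3
        · have := mul_le_mul_of_nonneg_right e3 hh
          have e4 : (2 * (1 + (k : ℝ) * η) / 3 - 2 / 15) * h =
            2 / 3 * ((1 + (k : ℝ) * η) * h) - 2 * h / 15 := by ring
          rw [e4] at this
          linarith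
        · have := mul_le_mul_of_nonneg_right e3 hh
          have e4 : ((1 + (k : ℝ) * η) - 1) * h = (1 + (k : ℝ) * η) * h - h := by ring
          rw [e4] at this
          linarith
      have e5 : (Fy (1 + (k : ℝ) * η) + η) * h = Fy (1 + (k : ℝ) * η) * h + η * h := by ring
      have e6 : δ * h = η * h + η * h := by rw [hη]; ring
      rw [e5, e6]
      linarith

end Pool.Agent.U663.GR
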