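import Mathlib
import Pool.Agent.U663.GR.Cnt

/-!
# Pairs of points of the projective line with a small radical of the product of all values
-/

set_option autoImplicit false

namespace Pool.Agent.U663.GR

open Finset Pool.Agent.TH893.PG Pool.Agent.TH867.QF

/-- the sum of the logarithms of the primes dividing one of the values -/
noncomputable def un (P : (ℤ × ℤ) × (ℤ × ℤ)) : ℝ :=
  ∑ q ∈ (Np L3 P.1).primeFactors ∪ (Np L3 P.2).primeFactors, Real.log (q : ℝ)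

theorem un_swap (P : (ℤ × ℤ) × (ℤ × ℤ)) : un P.swap = un P := by
  unfold un
  simp only [Prod.fst_swap, Prod.snd_swap]
  rw [Finset.union_comm]

theorem lN_le_un (P : (ℤ × ℤ) × (ℤ × ℤ)) : lN L3 P.1 ≤ un P :=
  Finset.sum_le_sum_of_subset_of_nonneg Finset.subset_union_left
    fun q _ _ => Real.log_natCast_nonneg q

/-- the case of a large radical of the first point -/
theorem pair_A (c δ : ℝ) (hc : 0 ≤ c) (hδ : 0 < δ) : ∃ D : ℝ, 0 < D ∧ ∀ h₁ h₂ : ℝ, 0 ≤ h₁ →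
    0 ≤ h₂ → ∀ F : Finset ((ℤ × ℤ) × (ℤ × ℤ)), (∀ P ∈ F, Pt L3 P.1 ∧ Pt L3 P.2 ∧
      h₁ - 1 ≤ Real.log (ht P.1) ∧ Real.log (ht P.1) ≤ h₁ ∧ Real.log (ht P.2) ≤ h₂ ∧
      h₁ ≤ lN L3 P.1 ∧ un P ≤ h₁ + h₂ + c) →
    (F.card : ℝ) ≤ D * Real.exp (max (8 * h₁ / 15 + 2 * h₂ / 3) h₂ + 3 * δ * (h₁ + h₂)) := by
  classical
  obtain ⟨D1, hD1, hA⟩ := shell δ hδ
  obtain ⟨D2, hD2, hB⟩ := fibre_poly L3 L3 δ hδ
  have hb : (2 : ℝ) / (((0 : ℕ) : ℝ) + 3) = 2 / 3 := by norm_num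
  rw [hb] at hB
  obtain ⟨E, hE⟩ : ∃ E : ℝ, E = Real.exp (1 + c + δ * (c + 1)) := ⟨_, rfl⟩
  have hE0 : 0 < E := by rw [hE]; exact Real.exp_pos _
  refine ⟨(1 / δ + 1) * (D1 * D2 * E) * Real.exp (δ * c), by positivity,
    fun h₁ h₂ hh1 hh2 F hF => ?_⟩
  obtain ⟨Λ, hΛd⟩ : ∃ Λ, Λ = h₁ + h₂ + c := ⟨_, rfl⟩
  have hΛ : 0 ≤ Λ := by rw [hΛd]; linarith
  obtain ⟨M, hM⟩ : ∃ M, M = max (8 * h₁ / 15 + 2 * h₂ / 3) h₂ := ⟨_, rfl⟩
  have hM1 : 8 * h₁ / 15 + 2 * h₂ / 3 ≤ M := by rw [hM]; exact le_max_left _ _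
  have hM2 : h₂ ≤ M := by rw [hM]; exact le_max_right _ _
  rw [← hM]
  have ha : ∀ P ∈ F, 0 ≤ lN L3 P.1 ∧ lN L3 P.1 ≤ Λ := by
    intro P hP
    refine ⟨lN_nonneg L3 _, (lN_le_un P).trans ?_⟩
    rw [hΛd]
    exact (hF P hP).2.2.2.2.2.2
  obtain ⟨A, hAd⟩ : ∃ A : ℕ → ℝ, A = fun j : ℕ =>
      D1 * Real.exp (max (2 * ((j : ℝ) + 1) / 3 - 2 * h₁ / 15) (((j : ℝ) + 1) - h₁) + δ * h₁) :=
    ⟨_, rfl⟩
  obtain ⟨B, hBd⟩ : ∃ B : ℕ → ℝ, B = fun j : ℕ =>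
      D2 * Real.exp ((2 / 3 + δ) * (Λ - j) + δ * h₂ + δ * (j + 1)) := ⟨_, rfl⟩
  obtain ⟨K, hK⟩ : ∃ K : ℝ, K = D1 * D2 * Real.exp (M + 1 + c + δ * (2 * h₁ + 2 * h₂ + c + 1)) :=
    ⟨_, rfl⟩
  have hA0 : ∀ j, 0 ≤ A j := fun j => by rw [hAd]; positivity
  have hB0 : ∀ j, 0 ≤ B j := fun j => by rw [hBd]; positivity
  have hmain := slices F (fun x => lN L3 x) hΛ ha hA0 hB0 (fun j G hG => by
    rcases G.eq_empty_or_nonempty with he | ⟨x0, hx0⟩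
    · rw [he, Finset.card_empty, Nat.cast_zero]
      exact hA0 j
    have hj : h₁ ≤ (j : ℝ) + 1 := by
      obtain ⟨⟨y, hy⟩, hlt⟩ := hG x0 hx0
      exact (hF _ hy).2.2.2.2.2.1.trans hlt.le
    rw [hAd]
    refine hA h₁ ((j : ℝ) + 1) hh1 hj G fun x hx => ?_
    obtain ⟨⟨y, hy⟩, hlt⟩ := hG x hx
    exact ⟨(hF _ hy).1, (hF _ hy).2.2.1, (hF _ hy).2.2.2.1, hlt.le⟩) (fun j x hux hxu G hG => by
    rcases G.eq_empty_or_nonempty with he | ⟨y0, hy0⟩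
    · rw [he, Finset.card_empty, Nat.cast_zero]
      exact hB0 j
    have huΛ : (j : ℝ) ≤ Λ := hux.trans (ha _ (hG y0 hy0)).2
    rw [hBd]
    refine hB Λ h₂ hh2 x j hux hxu huΛ G fun y hy => ?_
    have g := hF _ (hG y hy)
    refine ⟨g.2.1, g.2.2.2.2.1, ?_⟩
    rw [hΛd]
    exact g.2.2.2.2.2.2)
    (K := K) (by rw [hK]; positivity) (fun j hjΛ => by
      rw [hAd, hBd, hK]
      simp only
      rw [mul_mul_mul_comm, ← Real.exp_add]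
      refine mul_le_mul_of_nonneg_left (Real.exp_le_exp.2 ?_) (by positivity)
      have e1 : max (2 * ((j : ℝ) + 1) / 3 - 2 * h₁ / 15) (((j : ℝ) + 1) - h₁) +
          2 / 3 * (Λ - j) ≤ M + 1 + c := by
        rcases max_choice (2 * ((j : ℝ) + 1) / 3 - 2 * h₁ / 15) (((j : ℝ) + 1) - h₁) with e | e
        · rw [e, hΛd]
          linarith
        · rw [e]
          rw [hΛd] at hjΛ ⊢
          linarith
      have e2 : max (2 * ((j : ℝ) + 1) / 3 - 2 * h₁ / 15) (((j : ℝ) + 1) - h₁) + δ * h₁ +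
          ((2 / 3 + δ) * (Λ - j) + δ * h₂ + δ * (j + 1)) =
          (max (2 * ((j : ℝ) + 1) / 3 - 2 * h₁ / 15) (((j : ℝ) + 1) - h₁) + 2 / 3 * (Λ - j)) +
            δ * (2 * h₁ + 2 * h₂ + c + 1) := by
        rw [hΛd]
        ring
      rw [e2]
      linarith)
  refine hmain.trans ?_
  calc (Λ + 1) * K ≤ ((1 / δ + 1) * Real.exp (δ * Λ)) * K :=
        mul_le_mul_of_nonneg_right (lin_exp hδ hΛ) (by rw [hK]; positivity)
    _ = (1 / δ + 1) * (D1 * D2) * (Real.exp (δ * Λ) *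
          Real.exp (M + 1 + c + δ * (2 * h₁ + 2 * h₂ + c + 1))) := by
        rw [hK]; ring
    _ = _ := by
        rw [← Real.exp_add, hE, hΛd]
        have e1 : δ * (h₁ + h₂ + c) + (M + 1 + c + δ * (2 * h₁ + 2 * h₂ + c + 1)) =
          (1 + c + δ * (c + 1)) + δ * c + (M + 3 * δ * (h₁ + h₂)) := by ring
        rw [e1, Real.exp_add, Real.exp_add]
        ring

/-- the exponent -/
noncomputable def Mx (a b : ℝ) : ℝ :=
  max (max (8 * a / 15 + 2 * b / 3) (2 * a / 3 + 8 * b / 15)) (max a b)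

theorem pair_shell (c ε : ℝ) (hc : 0 ≤ c) (hε : 0 < ε) : ∃ D : ℝ, 0 < D ∧ ∀ h₁ h₂ : ℝ, 0 ≤ h₁ →
    0 ≤ h₂ → ∀ F : Finset ((ℤ × ℤ) × (ℤ × ℤ)), (∀ P ∈ F, Pt L3 P.1 ∧ Pt L3 P.2 ∧
      h₁ - 1 ≤ Real.log (ht P.1) ∧ Real.log (ht P.1) ≤ h₁ ∧
      h₂ - 1 ≤ Real.log (ht P.2) ∧ Real.log (ht P.2) ≤ h₂ ∧ un P ≤ h₁ + h₂ + c) →
    (F.card : ℝ) ≤ D * Real.exp (Mx h₁ h₂ + ε * (h₁ + h₂)) := by
  classical
  obtain ⟨δ, hδ⟩ : ∃ δ, δ = ε / 3 := ⟨_, rfl⟩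
  have hδ0 : 0 < δ := by rw [hδ]; positivity
  have hδ3 : 3 * δ = ε := by rw [hδ]; ring
  obtain ⟨D1, hD1, hA⟩ := pair_A c δ hc hδ0
  obtain ⟨C, hC, hS⟩ := shell ε hε
  rw [hδ3] at hA
  refine ⟨D1 + D1 + C * C, by positivity, fun h₁ h₂ hh1 hh2 F hF => ?_⟩
  obtain ⟨F1, hF1⟩ : ∃ F1, F1 = F.filter fun P => h₁ ≤ lN L3 P.1 := ⟨_, rfl⟩
  obtain ⟨F2, hF2⟩ : ∃ F2, F2 = F.filter fun P => h₂ ≤ lN L3 P.2 := ⟨_, rfl⟩
  obtain ⟨F3, hF3⟩ : ∃ F3, F3 = F.filter fun P => lN L3 P.1 ≤ h₁ ∧ lN L3 P.2 ≤ h₂ := ⟨_, rfl⟩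
  have hm1 : max (8 * h₁ / 15 + 2 * h₂ / 3) h₂ ≤ Mx h₁ h₂ := by
    unfold Mx
    exact max_le_max (le_max_left _ _) (le_max_right _ _)
  have hm2 : max (8 * h₂ / 15 + 2 * h₁ / 3) h₁ ≤ Mx h₁ h₂ := by
    unfold Mx
    refine max_le_max ?_ (le_max_left _ _)
    refine le_max_of_le_right ?_
    linarith
  have hm3 : 8 * h₁ / 15 + 8 * h₂ / 15 ≤ Mx h₁ h₂ := by
    unfold Mx
    refine le_max_of_le_left (le_max_of_le_left ?_)
    linarith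
  have c1 := hA h₁ h₂ hh1 hh2 F1 fun P hP => by
    rw [hF1, Finset.mem_filter] at hP
    obtain ⟨g1, g2⟩ := hP
    obtain ⟨k1, k2, k3, k4, k5, k6, k7⟩ := hF P g1
    exact ⟨k1, k2, k3, k4, k6, g2, k7⟩
  have c2 := hA h₂ h₁ hh2 hh1 (F2.image Prod.swap) fun P hP => by
    obtain ⟨Q, hQ, rfl⟩ := Finset.mem_image.1 hP
    rw [hF2, Finset.mem_filter] at hQ
    obtain ⟨g1, g2⟩ := hQ
    obtain ⟨k1, k2, k3, k4, k5, k6, k7⟩ := hF Q g1
    refine ⟨k2, k1, k5, k6, k4, g2, ?_⟩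
    rw [un_swap]
    linarith
  rw [Finset.card_image_of_injective _ Prod.swap_injective] at c2
  have c3 : (F3.card : ℝ) ≤ (C * C) * Real.exp (8 * h₁ / 15 + 8 * h₂ / 15 + ε * (h₁ + h₂)) := by
    have s1 := hS h₁ h₁ hh1 le_rfl (F3.image Prod.fst) fun x hx => by
      obtain ⟨P, hP, rfl⟩ := Finset.mem_image.1 hx
      rw [hF3, Finset.mem_filter] at hP
      obtain ⟨g1, g2, g3⟩ := hP
      obtain ⟨k1, k2, k3, k4, k5, k6, k7⟩ := hF P g1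
      exact ⟨k1, k3, k4, g2⟩
    have s2 := hS h₂ h₂ hh2 le_rfl (F3.image Prod.snd) fun x hx => by
      obtain ⟨P, hP, rfl⟩ := Finset.mem_image.1 hx
      rw [hF3, Finset.mem_filter] at hP
      obtain ⟨g1, g2, g3⟩ := hP
      obtain ⟨k1, k2, k3, k4, k5, k6, k7⟩ := hF P g1
      exact ⟨k2, k5, k6, g3⟩
    have s3 : F3.card ≤ (F3.image Prod.fst).card * (F3.image Prod.snd).card := by
      rw [← Finset.card_product]
      refine Finset.card_le_card fun P hP => ?_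
      exact Finset.mem_product.2 ⟨Finset.mem_image_of_mem _ hP, Finset.mem_image_of_mem _ hP⟩
    have s4 : ∀ h : ℝ, 0 ≤ h → max (2 * h / 3 - 2 * h / 15) (h - h) = 8 * h / 15 := by
      intro h hh
      rw [max_eq_left (by linarith)]
      ring
    rw [s4 h₁ hh1] at s1
    rw [s4 h₂ hh2] at s2
    calc (F3.card : ℝ) ≤ ((F3.image Prod.fst).card : ℝ) * ((F3.image Prod.snd).card : ℝ) := by
          exact_mod_cast s3
      _ ≤ (C * Real.exp (8 * h₁ / 15 + ε * h₁)) * (C * Real.exp (8 * h₂ / 15 + ε * h₂)) :=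
          mul_le_mul s1 s2 (Nat.cast_nonneg _) (by positivity)
      _ = _ := by
          rw [mul_mul_mul_comm, ← Real.exp_add]
          congr 2
          ring
  have hsub : F ⊆ (F1 ∪ F2) ∪ F3 := by
    intro P hP
    rw [Finset.mem_union, Finset.mem_union, hF1, hF2, hF3, Finset.mem_filter, Finset.mem_filter,
      Finset.mem_filter]
    rcases le_total h₁ (lN L3 P.1) with e1 | e1
    · exact Or.inl (Or.inl ⟨hP, e1⟩)
    · rcases le_total h₂ (lN L3 P.2) with e2 | e2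
      · exact Or.inl (Or.inr ⟨hP, e2⟩)
      · exact Or.inr ⟨hP, e1, e2⟩
  have hcard : (F.card : ℝ) ≤ F1.card + F2.card + F3.card := by
    have h1 := Finset.card_le_card hsub
    have h2 := Finset.card_union_le (F1 ∪ F2) F3
    have h3 := Finset.card_union_le F1 F2
    exact_mod_cast (by omega : F.card ≤ F1.card + F2.card + F3.card)
  have hx : ∀ x : ℝ, x ≤ Mx h₁ h₂ → Real.exp (x + ε * (h₁ + h₂)) ≤
      Real.exp (Mx h₁ h₂ + ε * (h₁ + h₂)) := fun x hx => Real.exp_le_exp.2 (by linarith)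
  have d1 := mul_le_mul_of_nonneg_left (hx _ hm1) hD1.le
  have d2 := mul_le_mul_of_nonneg_left (hx _ hm2) hD1.le
  have d3 := mul_le_mul_of_nonneg_left (hx _ hm3) (mul_pos hC hC).le
  rw [add_comm h₂ h₁] at c2
  calc (F.card : ℝ) ≤ F1.card + F2.card + F3.card := hcard
    _ ≤ D1 * Real.exp (Mx h₁ h₂ + ε * (h₁ + h₂)) + D1 * Real.exp (Mx h₁ h₂ + ε * (h₁ + h₂)) +
        C * C * Real.exp (Mx h₁ h₂ + ε * (h₁ + h₂)) :=
        add_le_add (add_le_add (c1.trans d1) (c2.trans d2)) (c3.trans d3)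
    _ = _ := by ring

theorem Mx_mono {a b a' b' : ℝ} (ha : a ≤ a') (hb : b ≤ b') : Mx a b ≤ Mx a' b' := by
  unfold Mx
  refine max_le_max (max_le_max ?_ ?_) (max_le_max ha hb) <;> linarith

theorem Mx_add (a b : ℝ) : Mx (a + 1) (b + 1) ≤ Mx a b + 2 := by
  have h1 : 8 * a / 15 + 2 * b / 3 ≤ Mx a b := le_max_of_le_left (le_max_left _ _)
  have h2 : 2 * a / 3 + 8 * b / 15 ≤ Mx a b := le_max_of_le_left (le_max_right _ _)
  have h3 : a ≤ Mx a b := le_max_of_le_right (le_max_left _ _)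
  have h4 : b ≤ Mx a b := le_max_of_le_right (le_max_right _ _)
  unfold Mx at h1 h2 h3 h4 ⊢
  refine max_le (max_le ?_ ?_) (max_le ?_ ?_) <;> linarith

/-- **The boxes.** -/
theorem box (c ε : ℝ) (hc : 0 ≤ c) (hε : 0 < ε) : ∃ D : ℝ, 0 < D ∧ ∀ L₁ L₂ : ℝ, 0 ≤ L₁ →
    0 ≤ L₂ → ∀ F : Finset ((ℤ × ℤ) × (ℤ × ℤ)), (∀ P ∈ F, Pt L3 P.1 ∧ Pt L3 P.2 ∧
      Real.log (ht P.1) ≤ L₁ ∧ Real.log (ht P.2) ≤ L₂ ∧
      un P ≤ Real.log (ht P.1) + Real.log (ht P.2) + c) →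
    (F.card : ℝ) ≤ D * Real.exp (Mx L₁ L₂ + ε * (L₁ + L₂)) := by
  classical
  obtain ⟨δ, hδ⟩ : ∃ δ, δ = ε / 2 := ⟨_, rfl⟩
  have hδ0 : 0 < δ := by rw [hδ]; positivity
  obtain ⟨D, hD, hS⟩ := pair_shell c δ hc hδ0
  refine ⟨(1 / δ + 1) ^ 2 * (D * Real.exp (2 + 2 * δ)), by positivity,
    fun L₁ L₂ hL1 hL2 F hF => ?_⟩
  have hlog0 : ∀ x : ℤ × ℤ, 0 ≤ Real.log (ht x : ℝ) := fun x => Real.log_natCast_nonneg _
  obtain ⟨V, hV⟩ : ∃ V : Finset (ℕ × ℕ), V = range (⌊L₁⌋₊ + 1) ×ˢ range (⌊L₂⌋₊ + 1) := ⟨_, rfl⟩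
  let Φ : (ℤ × ℤ) × (ℤ × ℤ) → ℕ × ℕ := fun P => (⌊Real.log (ht P.1)⌋₊, ⌊Real.log (ht P.2)⌋₊)
  have hmaps : ∀ P ∈ F, Φ P ∈ V := by
    intro P hP
    obtain ⟨k1, k2, k3, k4, k5⟩ := hF P hP
    rw [hV, mem_product, mem_range, mem_range]
    exact ⟨Nat.lt_succ_of_le (Nat.floor_le_floor k3), Nat.lt_succ_of_le (Nat.floor_le_floor k4)⟩
  have hcell : ∀ w ∈ V, ((F.filter fun P => Φ P = w).card : ℝ) ≤
      D * Real.exp (Mx (L₁ + 1) (L₂ + 1) + δ * ((L₁ + 1) + (L₂ + 1))) := by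
    intro w hw
    rw [hV, mem_product, mem_range, mem_range] at hw
    have w1 : (w.1 : ℝ) ≤ L₁ := (Nat.le_floor_iff hL1).1 (Nat.lt_succ_iff.1 hw.1)
    have w2 : (w.2 : ℝ) ≤ L₂ := (Nat.le_floor_iff hL2).1 (Nat.lt_succ_iff.1 hw.2)
    have h1 := hS ((w.1 : ℝ) + 1) ((w.2 : ℝ) + 1) (by positivity) (by positivity)
      (F.filter fun P => Φ P = w) fun P hP => by
        obtain ⟨g1, g2⟩ := Finset.mem_filter.1 hP
        obtain ⟨k1, k2, k3, k4, k5⟩ := hF P g1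
        have g3 : ⌊Real.log (ht P.1)⌋₊ = w.1 := congrArg Prod.fst g2
        have g4 : ⌊Real.log (ht P.2)⌋₊ = w.2 := congrArg Prod.snd g2
        have a1 := Nat.floor_le (hlog0 P.1)
        have a2 := Nat.lt_floor_add_one (Real.log (ht P.1))
        have b1 := Nat.floor_le (hlog0 P.2)
        have b2 := Nat.lt_floor_add_one (Real.log (ht P.2))
        rw [g3] at a1 a2
        rw [g4] at b1 b2
        exact ⟨k1, k2, by linarith, a2.le, by linarith, b2.le, by linarith⟩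
    refine h1.trans (mul_le_mul_of_nonneg_left (Real.exp_le_exp.2 ?_) hD.le)
    refine add_le_add (Mx_mono (by linarith) (by linarith)) ?_
    exact mul_le_mul_of_nonneg_left (by linarith) hδ0.le
  have h1 : F.card = ∑ w ∈ V, (F.filter fun P => Φ P = w).card :=
    card_eq_sum_card_fiberwise hmaps
  have h2 : (V.card : ℝ) ≤ ((1 / δ + 1) * Real.exp (δ * L₁)) * ((1 / δ + 1) * Real.exp (δ * L₂)) := by
    rw [hV, card_product, card_range, card_range]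
    push_cast
    have e1 := lin_exp hδ0 hL1
    have e2 := lin_exp hδ0 hL2
    have f1 := Nat.floor_le hL1
    have f2 := Nat.floor_le hL2
    exact mul_le_mul (by linarith) (by linarith) (by positivity) (by positivity)
  have h3 : Real.exp (Mx (L₁ + 1) (L₂ + 1) + δ * ((L₁ + 1) + (L₂ + 1))) ≤
      Real.exp (2 + 2 * δ) * Real.exp (Mx L₁ L₂ + δ * (L₁ + L₂)) := by
    rw [← Real.exp_add]
    refine Real.exp_le_exp.2 ?_
    have := Mx_add L₁ L₂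
    linarith
  calc (F.card : ℝ) = ∑ w ∈ V, ((F.filter fun P => Φ P = w).card : ℝ) := by
        rw [h1, Nat.cast_sum]
    _ ≤ ∑ w ∈ V, D * Real.exp (Mx (L₁ + 1) (L₂ + 1) + δ * ((L₁ + 1) + (L₂ + 1))) :=
        sum_le_sum hcell
    _ = (V.card : ℝ) * (D * Real.exp (Mx (L₁ + 1) (L₂ + 1) + δ * ((L₁ + 1) + (L₂ + 1)))) := by
        rw [sum_const, nsmul_eq_mul]
    _ ≤ (((1 / δ + 1) * Real.exp (δ * L₁)) * ((1 / δ + 1) * Real.exp (δ * L₂))) *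
        (D * (Real.exp (2 + 2 * δ) * Real.exp (Mx L₁ L₂ + δ * (L₁ + L₂)))) :=
        mul_le_mul h2 (mul_le_mul_of_nonneg_left h3 hD.le) (by positivity) (by positivity)
    _ = (1 / δ + 1) ^ 2 * (D * Real.exp (2 + 2 * δ)) *
        (Real.exp (δ * L₁) * Real.exp (δ * L₂) * Real.exp (Mx L₁ L₂ + δ * (L₁ + L₂))) := by ring
    _ = _ := by
        rw [← Real.exp_add, ← Real.exp_add, hδ]
        congr 2
        ring

end Pool.Agent.U663.GR
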