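import Mathlib
import Pool.Agent.U663.GR.Pair

/-!
# Reduction of three arbitrary rational points to `0`, `1`, `∞`
-/

set_option autoImplicit false

namespace Pool.Agent.U663.GR

open Finset Pool.Agent.TH893.PG Pool.Agent.TH867.QF

/-- first new coordinate -/
def cX (L : Fm (0 + 3)) (P : ℤ × ℤ) : ℤ := rs L 1 2 * ev L P 0

/-- second new coordinate -/
def cY (L : Fm (0 + 3)) (P : ℤ × ℤ) : ℤ := -(rs L 2 0 * ev L P 1)

/-- the greatest common divisor -/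
def cg (L : Fm (0 + 3)) (P : ℤ × ℤ) : ℕ := Int.gcd (cX L P) (cY L P)

/-- the new point -/
def TT (L : Fm (0 + 3)) (P : ℤ × ℤ) : ℤ × ℤ := (cX L P / cg L P, cY L P / cg L P)

theorem rs_ne (L : Fm (0 + 3)) {i j : Fin (0 + 3)} (h : i ≠ j) : rs L i j ≠ 0 := L.res i j h

theorem c_sub (L : Fm (0 + 3)) (P : ℤ × ℤ) : cX L P - cY L P = -(rs L 0 1 * ev L P 2) := by
  unfold cX cY rs ev
  ring

theorem c_one (L : Fm (0 + 3)) (P : ℤ × ℤ) :
    rs L 0 1 * P.1 = L.w 1 * ev L P 0 - L.w 0 * ev L P 1 := by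
  unfold rs ev
  ring

theorem c_two (L : Fm (0 + 3)) (P : ℤ × ℤ) :
    rs L 0 1 * P.2 = L.u 0 * ev L P 1 - L.u 1 * ev L P 0 := by
  unfold rs ev
  ring

/-- a bound for `g` -/
def NN (L : Fm (0 + 3)) : ℕ := (rs L 1 2 * rs L 2 0 * rs L 0 1).natAbs

theorem NN_pos (L : Fm (0 + 3)) : 0 < NN L := by
  unfold NN
  refine Int.natAbs_pos.2 (mul_ne_zero (mul_ne_zero ?_ ?_) ?_)
  · exact rs_ne L (by decide)
  · exact rs_ne L (by decide)
  · exact rs_ne L (by decide)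

theorem cX_ne {L : Fm (0 + 3)} {P : ℤ × ℤ} (h : Pt L P) : cX L P ≠ 0 :=
  mul_ne_zero (rs_ne L (by decide)) (h.ne 0)

theorem cY_ne {L : Fm (0 + 3)} {P : ℤ × ℤ} (h : Pt L P) : cY L P ≠ 0 :=
  neg_ne_zero.2 (mul_ne_zero (rs_ne L (by decide)) (h.ne 1))

theorem cXY_ne {L : Fm (0 + 3)} {P : ℤ × ℤ} (h : Pt L P) : cX L P - cY L P ≠ 0 := by
  rw [c_sub]
  exact neg_ne_zero.2 (mul_ne_zero (rs_ne L (by decide)) (h.ne 2))

theorem cg_pos {L : Fm (0 + 3)} {P : ℤ × ℤ} (h : Pt L P) : 0 < cg L P :=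
  Int.gcd_pos_of_ne_zero_left _ (cX_ne h)

theorem cX_eq (L : Fm (0 + 3)) (P : ℤ × ℤ) : cX L P = cg L P * (TT L P).1 :=
  (Int.mul_ediv_cancel' (Int.gcd_dvd_left _ _)).symm

theorem cY_eq (L : Fm (0 + 3)) (P : ℤ × ℤ) : cY L P = cg L P * (TT L P).2 :=
  (Int.mul_ediv_cancel' (Int.gcd_dvd_right _ _)).symm

theorem cg_dvd {L : Fm (0 + 3)} {P : ℤ × ℤ} (h : Pt L P) :
    (cg L P : ℤ) ∣ rs L 1 2 * rs L 2 0 * rs L 0 1 := by
  have h1 : (cg L P : ℤ) ∣ cX L P := Int.gcd_dvd_left _ _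
  have h2 : (cg L P : ℤ) ∣ cY L P := Int.gcd_dvd_right _ _
  obtain ⟨a, b, hab⟩ := h.cop
  have e : rs L 1 2 * rs L 2 0 * rs L 0 1 =
      cX L P * (rs L 2 0 * (a * L.w 1 - b * L.u 1)) +
        cY L P * (rs L 1 2 * (a * L.w 0 - b * L.u 0)) := by
    have e1 : rs L 1 2 * rs L 2 0 * rs L 0 1 =
        rs L 1 2 * rs L 2 0 * (a * (rs L 0 1 * P.1) + b * (rs L 0 1 * P.2)) := by
      linear_combination (-(rs L 1 2 * rs L 2 0 * rs L 0 1)) * hab
    rw [e1, c_one, c_two]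
    unfold cX cY
    ring
  rw [e]
  exact dvd_add (h1.mul_right _) (h2.mul_right _)

theorem cg_le {L : Fm (0 + 3)} {P : ℤ × ℤ} (h : Pt L P) : cg L P ≤ NN L :=
  Nat.le_of_dvd (NN_pos L) (Int.natCast_dvd.1 (cg_dvd h))

theorem TT_inj {L : Fm (0 + 3)} {P Q : ℤ × ℤ} (h : TT L P = TT L Q) (hg : cg L P = cg L Q) :
    P = Q := by
  have hX : cX L P = cX L Q := by rw [cX_eq, cX_eq, h, hg]
  have hY : cY L P = cY L Q := by rw [cY_eq, cY_eq, h, hg]
  have h0 : ev L P 0 = ev L Q 0 := mul_left_cancel₀ (rs_ne L (by decide)) hX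
  have h1 : ev L P 1 = ev L Q 1 := mul_left_cancel₀ (rs_ne L (by decide)) (neg_injective hY)
  have hd : rs L 0 1 ≠ 0 := rs_ne L (by decide)
  refine Prod.ext ?_ ?_
  · apply mul_left_cancel₀ hd
    rw [c_one, c_one, h0, h1]
  · apply mul_left_cancel₀ hd
    rw [c_two, c_two, h0, h1]

theorem TT_pt {L : Fm (0 + 3)} {P : ℤ × ℤ} (h : Pt L P) : Pt L3 (TT L P) := by
  have hg : (cg L P : ℤ) ≠ 0 := by exact_mod_cast (cg_pos h).ne'
  have h1 : (TT L P).1 ≠ 0 := fun e => cX_ne h (by rw [cX_eq, e, mul_zero])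
  have h2 : (TT L P).2 ≠ 0 := fun e => cY_ne h (by rw [cY_eq, e, mul_zero])
  have h3 : (TT L P).1 - (TT L P).2 ≠ 0 := fun e => cXY_ne h (by
    rw [cX_eq, cY_eq, ← mul_sub, e, mul_zero])
  refine pt_of al hal ?_ ?_
  · rw [Int.isCoprime_iff_gcd_eq_one]
    exact Int.gcd_ediv_gcd_ediv_gcd (cg_pos h)
  · rw [pw_al]
    exact neg_ne_zero.2 (mul_ne_zero (mul_ne_zero h1 h2) h3)

theorem TT_primes {L : Fm (0 + 3)} {P : ℤ × ℤ} (h : Pt L P) :
    (Np L3 (TT L P)).primeFactors ⊆ (Np L P).primeFactors ∪ (NN L).primeFactors := by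
  intro q hq
  have hp := Nat.prime_of_mem_primeFactors hq
  have hpi : Prime (q : ℤ) := Nat.prime_iff_prime_int.1 hp
  have hd : (q : ℤ) ∣ (TT L P).1 * (TT L P).2 * ((TT L P).1 - (TT L P).2) := by
    have := Nat.dvd_of_mem_primeFactors hq
    rw [Np_L3] at this
    exact Int.natCast_dvd.2 this
  have hN : ∀ i, (q : ℤ) ∣ ev L P i → q ∈ (Np L P).primeFactors := by
    intro i hi
    refine Nat.mem_primeFactors.2 ⟨hp, ?_, ?_⟩
    · unfold Np
      exact (Int.natCast_dvd.1 hi).trans (Finset.dvd_prod_of_mem (va L P) (Finset.mem_univ i))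
    · unfold Np
      exact Finset.prod_ne_zero_iff.2 fun i _ => Int.natAbs_ne_zero.2 (h.ne i)
  have hM : (q : ℤ) ∣ rs L 1 2 * rs L 2 0 * rs L 0 1 → q ∈ (NN L).primeFactors := fun h0 =>
    Nat.mem_primeFactors.2 ⟨hp, Int.natCast_dvd.1 h0, (NN_pos L).ne'⟩
  rw [Finset.mem_union]
  have key : ∀ (i : Fin (0 + 3)) (d : ℤ), d ∣ rs L 1 2 * rs L 2 0 * rs L 0 1 →
      (q : ℤ) ∣ d * ev L P i → q ∈ (Np L P).primeFactors ∨ q ∈ (NN L).primeFactors := by
    intro i d hd1 hd2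
    rcases hpi.dvd_or_dvd hd2 with h1 | h1
    · exact Or.inr (hM (h1.trans hd1))
    · exact Or.inl (hN i h1)
  rcases hpi.dvd_or_dvd hd with h1 | h1
  · rcases hpi.dvd_or_dvd h1 with h2 | h2
    · refine key 0 (rs L 1 2) ⟨rs L 2 0 * rs L 0 1, by ring⟩ ?_
      have : (q : ℤ) ∣ cX L P := by rw [cX_eq]; exact h2.mul_left _
      exact this
    · refine key 1 (rs L 2 0) ⟨rs L 1 2 * rs L 0 1, by ring⟩ ?_
      have : (q : ℤ) ∣ cY L P := by rw [cY_eq]; exact h2.mul_left _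
      exact (dvd_neg).1 this
  · refine key 2 (rs L 0 1) ⟨rs L 1 2 * rs L 2 0, by ring⟩ ?_
    have : (q : ℤ) ∣ cX L P - cY L P := by rw [cX_eq, cY_eq, ← mul_sub]; exact h1.mul_left _
    rw [c_sub] at this
    exact (dvd_neg).1 this

/-- a bound for the coefficients -/
def BB (L : Fm (0 + 3)) : ℕ :=
  (rs L 1 2).natAbs * ((L.u 0).natAbs + (L.w 0).natAbs) +
    (rs L 2 0).natAbs * ((L.u 1).natAbs + (L.w 1).natAbs) +
    (NN L) * ((L.u 0).natAbs + (L.w 0).natAbs + (L.u 1).natAbs + (L.w 1).natAbs) + 1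

theorem le_ht (P : ℤ × ℤ) : P.1.natAbs ≤ ht P ∧ P.2.natAbs ≤ ht P :=
  ⟨le_max_left _ _, le_max_right _ _⟩

theorem ev_le (L : Fm (0 + 3)) (P : ℤ × ℤ) (i : Fin (0 + 3)) :
    (ev L P i).natAbs ≤ ((L.u i).natAbs + (L.w i).natAbs) * ht P := by
  unfold ev
  refine (Int.natAbs_add_le _ _).trans ?_
  rw [Int.natAbs_mul, Int.natAbs_mul, add_mul]
  exact Nat.add_le_add (Nat.mul_le_mul_left _ (le_ht P).1) (Nat.mul_le_mul_left _ (le_ht P).2)

theorem TT_ht_le {L : Fm (0 + 3)} {P : ℤ × ℤ} (h : Pt L P) : ht (TT L P) ≤ BB L * ht P := by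
  have hg := cg_pos h
  have a1 : (TT L P).1.natAbs ≤ (cX L P).natAbs := by
    rw [cX_eq, Int.natAbs_mul, Int.natAbs_natCast]
    exact Nat.le_mul_of_pos_left _ hg
  have a2 : (TT L P).2.natAbs ≤ (cY L P).natAbs := by
    rw [cY_eq, Int.natAbs_mul, Int.natAbs_natCast]
    exact Nat.le_mul_of_pos_left _ hg
  have b1 : (cX L P).natAbs ≤ (rs L 1 2).natAbs * ((L.u 0).natAbs + (L.w 0).natAbs) * ht P := by
    unfold cX
    rw [Int.natAbs_mul, mul_assoc]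
    exact Nat.mul_le_mul_left _ (ev_le L P 0)
  have b2 : (cY L P).natAbs ≤ (rs L 2 0).natAbs * ((L.u 1).natAbs + (L.w 1).natAbs) * ht P := by
    unfold cY
    rw [Int.natAbs_neg, Int.natAbs_mul, mul_assoc]
    exact Nat.mul_le_mul_left _ (ev_le L P 1)
  refine max_le ?_ ?_
  · refine a1.trans (b1.trans (Nat.mul_le_mul_right _ ?_))
    unfold BB
    omega
  · refine a2.trans (b2.trans (Nat.mul_le_mul_right _ ?_))
    unfold BB
    omega

theorem ht_le_TT {L : Fm (0 + 3)} {P : ℤ × ℤ} (h : Pt L P) : ht P ≤ BB L * ht (TT L P) := by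
  have hgN := cg_le h
  have hr : 0 < (rs L 0 1).natAbs := Int.natAbs_pos.2 (rs_ne L (by decide))
  have hr1 : 0 < (rs L 1 2).natAbs := Int.natAbs_pos.2 (rs_ne L (by decide))
  have hr2 : 0 < (rs L 2 0).natAbs := Int.natAbs_pos.2 (rs_ne L (by decide))
  have e0 : (ev L P 0).natAbs ≤ NN L * ht (TT L P) := by
    calc (ev L P 0).natAbs ≤ (rs L 1 2).natAbs * (ev L P 0).natAbs :=
          Nat.le_mul_of_pos_left _ hr1
      _ = (cX L P).natAbs := by unfold cX; rw [Int.natAbs_mul]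
      _ = cg L P * (TT L P).1.natAbs := by rw [cX_eq, Int.natAbs_mul, Int.natAbs_natCast]
      _ ≤ _ := Nat.mul_le_mul hgN (le_ht _).1
  have e1 : (ev L P 1).natAbs ≤ NN L * ht (TT L P) := by
    calc (ev L P 1).natAbs ≤ (rs L 2 0).natAbs * (ev L P 1).natAbs :=
          Nat.le_mul_of_pos_left _ hr2
      _ = (cY L P).natAbs := by unfold cY; rw [Int.natAbs_neg, Int.natAbs_mul]
      _ = cg L P * (TT L P).2.natAbs := by rw [cY_eq, Int.natAbs_mul, Int.natAbs_natCast]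
      _ ≤ _ := Nat.mul_le_mul hgN (le_ht _).2
  have f1 : P.1.natAbs ≤ ((L.w 1).natAbs + (L.w 0).natAbs) * (NN L * ht (TT L P)) := by
    calc P.1.natAbs ≤ (rs L 0 1).natAbs * P.1.natAbs := Nat.le_mul_of_pos_left _ hr
      _ = (L.w 1 * ev L P 0 - L.w 0 * ev L P 1).natAbs := by rw [← Int.natAbs_mul, c_one]
      _ ≤ (L.w 1 * ev L P 0).natAbs + (L.w 0 * ev L P 1).natAbs := Int.natAbs_sub_le _ _
      _ ≤ _ := by
          rw [Int.natAbs_mul, Int.natAbs_mul, add_mul]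
          exact Nat.add_le_add (Nat.mul_le_mul_left _ e0) (Nat.mul_le_mul_left _ e1)
  have f2 : P.2.natAbs ≤ ((L.u 0).natAbs + (L.u 1).natAbs) * (NN L * ht (TT L P)) := by
    calc P.2.natAbs ≤ (rs L 0 1).natAbs * P.2.natAbs := Nat.le_mul_of_pos_left _ hr
      _ = (L.u 0 * ev L P 1 - L.u 1 * ev L P 0).natAbs := by rw [← Int.natAbs_mul, c_two]
      _ ≤ (L.u 0 * ev L P 1).natAbs + (L.u 1 * ev L P 0).natAbs := Int.natAbs_sub_le _ _
      _ ≤ _ := by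
          rw [Int.natAbs_mul, Int.natAbs_mul, add_mul]
          exact Nat.add_le_add (Nat.mul_le_mul_left _ e1) (Nat.mul_le_mul_left _ e0)
  have k : ∀ m : ℕ, m ≤ (L.u 0).natAbs + (L.w 0).natAbs + (L.u 1).natAbs + (L.w 1).natAbs →
      m * (NN L * ht (TT L P)) ≤ BB L * ht (TT L P) := by
    intro m hm
    rw [← mul_assoc]
    refine Nat.mul_le_mul_right _ ?_
    calc m * NN L ≤ ((L.u 0).natAbs + (L.w 0).natAbs + (L.u 1).natAbs + (L.w 1).natAbs) * NN L :=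
          Nat.mul_le_mul_right _ hm
      _ = NN L * ((L.u 0).natAbs + (L.w 0).natAbs + (L.u 1).natAbs + (L.w 1).natAbs) := by ring
      _ ≤ _ := by unfold BB; omega
  exact max_le (f1.trans (k _ (by omega))) (f2.trans (k _ (by omega)))

/-- the sum of the logarithms of the primes dividing one of the values -/
noncomputable def unL (L L' : Fm (0 + 3)) (P : (ℤ × ℤ) × (ℤ × ℤ)) : ℝ :=
  ∑ q ∈ (Np L P.1).primeFactors ∪ (Np L' P.2).primeFactors, Real.log (q : ℝ)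

/-- **The boxes, arbitrary points.** -/
theorem boxL (L L' : Fm (0 + 3)) (c ε : ℝ) (hc : 0 ≤ c) (hε : 0 < ε) : ∃ D : ℝ, 0 < D ∧
    ∀ L₁ L₂ : ℝ, 0 ≤ L₁ → 0 ≤ L₂ → ∀ F : Finset ((ℤ × ℤ) × (ℤ × ℤ)), (∀ P ∈ F, Pt L P.1 ∧
      Pt L' P.2 ∧ Real.log (ht P.1) ≤ L₁ ∧ Real.log (ht P.2) ≤ L₂ ∧
      unL L L' P ≤ Real.log (ht P.1) + Real.log (ht P.2) + c) →
    (F.card : ℝ) ≤ D * Real.exp (Mx L₁ L₂ + ε * (L₁ + L₂)) := by
  classical
  obtain ⟨C, hC⟩ : ∃ C : ℝ, C = Real.log (BB L) + Real.log (BB L') := ⟨_, rfl⟩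
  have hB0 : ∀ M : Fm (0 + 3), 0 ≤ Real.log (BB M : ℝ) := fun M => Real.log_natCast_nonneg _
  have hBp : ∀ M : Fm (0 + 3), 0 < BB M := fun M => by unfold BB; omega
  have hC0 : 0 ≤ C := by rw [hC]; exact add_nonneg (hB0 L) (hB0 L')
  have hCL : Real.log (BB L : ℝ) ≤ C := by rw [hC]; linarith [hB0 L']
  have hCL' : Real.log (BB L' : ℝ) ≤ C := by rw [hC]; linarith [hB0 L]
  obtain ⟨E, hE⟩ : ∃ E : ℝ, E = ∑ q ∈ (NN L).primeFactors ∪ (NN L').primeFactors,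
    Real.log (q : ℝ) := ⟨_, rfl⟩
  have hE0 : 0 ≤ E := by
    rw [hE]; exact Finset.sum_nonneg fun q _ => Real.log_natCast_nonneg q
  obtain ⟨D, hD, hbox⟩ := box (c + C + E) ε (by linarith) hε
  refine ⟨((NN L + 1) * (NN L' + 1) : ℕ) * (D * Real.exp (2 * C + 2 * ε * C)), ?_,
    fun L₁ L₂ hL1 hL2 F hF => ?_⟩
  · have : 0 < (NN L + 1) * (NN L' + 1) := by positivity
    have : (0 : ℝ) < (((NN L + 1) * (NN L' + 1) : ℕ) : ℝ) := by exact_mod_cast this
    positivity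
  have hup : ∀ (M : Fm (0 + 3)) (P : ℤ × ℤ), Pt M P →
      Real.log (ht (TT M P)) ≤ Real.log (BB M) + Real.log (ht P) ∧
      Real.log (ht P) ≤ Real.log (BB M) + Real.log (ht (TT M P)) := by
    intro M P hP
    have p1 : (0 : ℝ) < ht P := by exact_mod_cast ht_pos hP
    have p2 : (0 : ℝ) < ht (TT M P) := by exact_mod_cast ht_pos (TT_pt hP)
    have p3 : (0 : ℝ) < BB M := by exact_mod_cast hBp M
    rw [← Real.log_mul p3.ne' p1.ne', ← Real.log_mul p3.ne' p2.ne']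
    exact ⟨Real.log_le_log p2 (by exact_mod_cast TT_ht_le hP),
      Real.log_le_log p1 (by exact_mod_cast ht_le_TT hP)⟩
  let Ψ : (ℤ × ℤ) × (ℤ × ℤ) → (ℤ × ℤ) × (ℤ × ℤ) := fun P => (TT L P.1, TT L' P.2)
  have himg := hbox (L₁ + C) (L₂ + C) (by linarith) (by linarith) (F.image Ψ) fun Q hQ => by
    obtain ⟨P, hP, rfl⟩ := Finset.mem_image.1 hQ
    obtain ⟨k1, k2, k3, k4, k5⟩ := hF P hP
    obtain ⟨u1, u2⟩ := hup L P.1 k1
    obtain ⟨v1, v2⟩ := hup L' P.2 k2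
    refine ⟨TT_pt k1, TT_pt k2, by simp only [Ψ]; linarith, by simp only [Ψ]; linarith, ?_⟩
    have h1 : un (Ψ P) ≤ unL L L' P + E := by
      unfold un unL
      rw [hE]
      have s1 : (Np L3 (Ψ P).1).primeFactors ∪ (Np L3 (Ψ P).2).primeFactors ⊆
          ((Np L P.1).primeFactors ∪ (Np L' P.2).primeFactors) ∪
            ((NN L).primeFactors ∪ (NN L').primeFactors) := by
        intro q hq
        rcases Finset.mem_union.1 hq with h2 | h2
        · rcases Finset.mem_union.1 (TT_primes k1 h2) with h3 | h3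
          · exact Finset.mem_union_left _ (Finset.mem_union_left _ h3)
          · exact Finset.mem_union_right _ (Finset.mem_union_left _ h3)
        · rcases Finset.mem_union.1 (TT_primes k2 h2) with h3 | h3
          · exact Finset.mem_union_left _ (Finset.mem_union_right _ h3)
          · exact Finset.mem_union_right _ (Finset.mem_union_right _ h3)
      refine (Finset.sum_le_sum_of_subset_of_nonneg s1
        fun q _ _ => Real.log_natCast_nonneg q).trans ?_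
      exact sum_union_le' (fun q : ℕ => Real.log (q : ℝ)) (fun q => Real.log_natCast_nonneg q) _ _
    have h2 : Real.log (ht P.1) + Real.log (ht P.2) ≤
        Real.log (ht (TT L P.1)) + Real.log (ht (TT L' P.2)) + C := by rw [hC]; linarith
    show un (Ψ P) ≤ Real.log (ht (TT L P.1)) + Real.log (ht (TT L' P.2)) + (c + C + E)
    linarith
  have hinj : F.card ≤ (NN L + 1) * (NN L' + 1) * (F.image Ψ).card := by
    have h1 : (F.image fun P => (Ψ P, (cg L P.1, cg L' P.2))).card = F.card := by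
      refine card_image_of_injOn ?_
      intro P hP Q hQ hPQ
      simp only [Ψ, Prod.mk.injEq] at hPQ
      obtain ⟨⟨a1, a2⟩, a3, a4⟩ := hPQ
      exact Prod.ext (TT_inj a1 a3) (TT_inj a2 a4)
    have h2 : (F.image fun P => (Ψ P, (cg L P.1, cg L' P.2))) ⊆
        (F.image Ψ) ×ˢ (range (NN L + 1) ×ˢ range (NN L' + 1)) := by
      intro z hz
      obtain ⟨P, hP, rfl⟩ := mem_image.1 hz
      obtain ⟨k1, k2, -⟩ := hF P hP
      refine mem_product.2 ⟨mem_image_of_mem _ hP, mem_product.2 ⟨?_, ?_⟩⟩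
      · exact mem_range.2 (Nat.lt_succ_of_le (cg_le k1))
      · exact mem_range.2 (Nat.lt_succ_of_le (cg_le k2))
    have h3 := card_le_card h2
    rw [h1, card_product, card_product, card_range, card_range] at h3
    rw [mul_comm]
    exact h3
  have h4 : Real.exp (Mx (L₁ + C) (L₂ + C) + ε * ((L₁ + C) + (L₂ + C))) ≤
      Real.exp (2 * C + 2 * ε * C) * Real.exp (Mx L₁ L₂ + ε * (L₁ + L₂)) := by
    rw [← Real.exp_add]
    refine Real.exp_le_exp.2 ?_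
    have h1 : 8 * L₁ / 15 + 2 * L₂ / 3 ≤ Mx L₁ L₂ := le_max_of_le_left (le_max_left _ _)
    have h2 : 2 * L₁ / 3 + 8 * L₂ / 15 ≤ Mx L₁ L₂ := le_max_of_le_left (le_max_right _ _)
    have h3 : L₁ ≤ Mx L₁ L₂ := le_max_of_le_right (le_max_left _ _)
    have h4 : L₂ ≤ Mx L₁ L₂ := le_max_of_le_right (le_max_right _ _)
    have h5 : Mx (L₁ + C) (L₂ + C) ≤ Mx L₁ L₂ + 2 * C := by
      unfold Mx at h1 h2 h3 h4 ⊢
      refine max_le (max_le ?_ ?_) (max_le ?_ ?_) <;> linarith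
    linarith
  calc (F.card : ℝ) ≤ ((NN L + 1) * (NN L' + 1) : ℕ) * ((F.image Ψ).card : ℝ) := by
        exact_mod_cast hinj
    _ ≤ ((NN L + 1) * (NN L' + 1) : ℕ) * (D * (Real.exp (2 * C + 2 * ε * C) *
        Real.exp (Mx L₁ L₂ + ε * (L₁ + L₂)))) :=
        mul_le_mul_of_nonneg_left (himg.trans (mul_le_mul_of_nonneg_left h4 hD.le))
          (Nat.cast_nonneg _)
    _ = _ := by ring

end Pool.Agent.U663.GR
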